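import Pool.Agent.H.MP_69d501_gt.Defs

namespace Pool.Agent.H.MP_69d501_gt

abbrev Pt := ℕ × Bool

lemma Next.mem {w : List Pt} {a b : Pt} (h : Next w a b) : a ∈ w ∧ b ∈ w := by
  obtain ⟨u, v, rfl⟩ := h
  simp

lemma Ord.adj {w : List Pt} {a b : Pt} {o : ℤˣ} (h : Ord w a b o) : Adj w a b :=
  h.imp And.right And.right

lemma Adj.mem {w : List Pt} {a b : Pt} (h : Adj w a b) : a ∈ w ∧ b ∈ w := by
  rcases h with h | h
  · exact h.mem
  · exact h.mem.symm

lemma Next.left {u : List Pt} {a b : Pt} (h : Next u a b) (v : List Pt) : Next (u ++ v) a b := by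
  obtain ⟨x, y, rfl⟩ := h
  exact ⟨x, y ++ v, by simp⟩

lemma Next.right {v : List Pt} {a b : Pt} (h : Next v a b) (u : List Pt) : Next (u ++ v) a b := by
  obtain ⟨x, y, rfl⟩ := h
  exact ⟨u ++ x, y, by simp⟩

lemma Next.split {u v : List Pt} {a b : Pt} (h : Next (u ++ v) a b) (hu : u.getLast? ≠ some a) :
    Next u a b ∨ Next v a b := by
  obtain ⟨x, y, h⟩ := h
  rcases List.append_eq_append_iff.1 h with ⟨c, rfl, rfl⟩ | ⟨c, rfl, h1⟩
  · exact Or.inr ⟨c, y, rfl⟩
  · rcases c with _ | ⟨a', _ | ⟨b', c⟩⟩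
    · exact Or.inr ⟨[], y, h1.symm⟩
    · obtain ⟨rfl, -⟩ := List.cons.inj h1
      simp at hu
    · obtain ⟨rfl, h2⟩ := List.cons.inj h1
      obtain ⟨rfl, -⟩ := List.cons.inj h2
      exact Or.inl ⟨x, c, rfl⟩

lemma Next.filter {w : List Pt} {a b : Pt} (h : Next w a b) {k : Pt → Bool} (ha : k a = true)
    (hb : k b = true) : Next (w.filter k) a b := by
  obtain ⟨u, v, rfl⟩ := h
  exact ⟨u.filter k, v.filter k, by simp [ha, hb]⟩

lemma Next.map {w : List Pt} {a b : Pt} (h : Next w a b) (f : Pt → Pt) :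
    Next (w.map f) (f a) (f b) := by
  obtain ⟨u, v, rfl⟩ := h
  exact ⟨u.map f, v.map f, by simp⟩

lemma Next.flatMap {w : List Pt} {a b a' b' : Pt} (h : Next w a b) (f : Pt → List Pt)
    {u v : List Pt} (ha : f a = u ++ [a']) (hb : f b = b' :: v) : Next (w.flatMap f) a' b' := by
  obtain ⟨x, y, rfl⟩ := h
  exact ⟨x.flatMap f ++ u, v ++ y.flatMap f, by simp [ha, hb]⟩

lemma next_flatMap {w : List Pt} {e a b : Pt} (he : e ∈ w) (f : Pt → List Pt)
    (h : Next (f e) a b) : Next (w.flatMap f) a b := by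
  obtain ⟨x, y, rfl⟩ := List.append_of_mem he
  rw [List.flatMap_append, List.flatMap_cons]
  exact (h.left _).right _

lemma cancel {u v x y : List Pt} {a : Pt} (hn : (u ++ a :: v).Nodup)
    (h : u ++ a :: v = x ++ a :: y) : u = x ∧ v = y := by
  have h1 : a ∉ u := fun h' => (List.nodup_append.1 hn).2.2 a h' a (by simp) rfl
  have h2 : a ∉ x := by
    rw [h] at hn
    exact fun h' => (List.nodup_append.1 hn).2.2 a h' a (by simp) rfl
  clear hn
  induction u generalizing x with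
  | nil =>
    rcases x with _ | ⟨b, x⟩
    · exact ⟨rfl, (List.cons.inj h).2⟩
    · exact (h2 (by simp [(List.cons.inj h).1])).elim
  | cons c u ih =>
    rcases x with _ | ⟨b, x⟩
    · exact (h1 (by simp [(List.cons.inj h).1])).elim
    · obtain ⟨rfl, h3⟩ := List.cons.inj h
      obtain ⟨rfl, rfl⟩ := ih h3 (fun h' => h1 (by simp [h'])) fun h' => h2 (by simp [h'])
      exact ⟨rfl, rfl⟩

lemma Next.skip {w : List Pt} (hn : w.Nodup) {a b c d : Pt} (h1 : Next w a b) (h2 : Next w b c)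
    (h3 : Next w c d) {k : Pt → Bool} (ha : k a = true) (hb : k b = false) (hc : k c = false)
    (hd : k d = true) : Next (w.filter k) a d := by
  obtain ⟨u, v, rfl⟩ := h1
  obtain ⟨x, y, h2⟩ := h2
  obtain ⟨-, rfl⟩ := cancel (u := u ++ [a]) (by simpa using hn) (by simpa using h2)
  obtain ⟨x', y', h3⟩ := h3
  obtain ⟨-, rfl⟩ := cancel (u := u ++ [a, b]) (by simpa using hn) (by simpa using h3)
  exact ⟨u.filter k, y'.filter k, by simp [ha, hb, hc, hd]⟩

lemma Ord.skip {w : List Pt} (hn : w.Nodup) {a b c d : Pt} {o : ℤˣ} (h1 : Ord w a b o)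
    (h2 : Ord w b c o) (h3 : Ord w c d o) {k : Pt → Bool} (ha : k a = true) (hb : k b = false)
    (hc : k c = false) (hd : k d = true) : Ord (w.filter k) a d o := by
  rcases h1 with ⟨rfl, h1⟩ | ⟨rfl, h1⟩
  · exact Or.inl ⟨rfl, h1.skip hn (h2.resolve_right (by simp)).2 (h3.resolve_right (by simp)).2
      ha hb hc hd⟩
  · exact Or.inr ⟨rfl, (h3.resolve_left (by simp)).2.skip hn (h2.resolve_left (by simp)).2 h1
      hd hc hb ha⟩

lemma Ord.filter {w : List Pt} {a b : Pt} {o : ℤˣ} (h : Ord w a b o) {k : Pt → Bool}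
    (ha : k a = true) (hb : k b = true) : Ord (w.filter k) a b o :=
  h.imp (And.imp_right fun h => h.filter ha hb) (And.imp_right fun h => h.filter hb ha)

lemma Ord.map {w : List Pt} {a b : Pt} {o : ℤˣ} (h : Ord w a b o) (f : Pt → Pt) :
    Ord (w.map f) (f a) (f b) o :=
  h.imp (And.imp_right fun h => h.map f) (And.imp_right fun h => h.map f)

lemma Ord.symm {w : List Pt} {a b : Pt} {o : ℤˣ} (h : Ord w a b o) : Ord w b a (-o) := by
  rcases h with ⟨rfl, h⟩ | ⟨rfl, h⟩
  · exact Or.inr ⟨rfl, h⟩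
  · exact Or.inl ⟨rfl, h⟩

lemma split (k : Pt → Bool) (w : List Pt) : ∀ u v, w.filter k = u ++ v →
    ∃ u' v', w = u' ++ v' ∧ u'.filter k = u ∧ v'.filter k = v ∧ u'.getLast? = u.getLast? := by
  induction w with
  | nil =>
    intro u v h
    obtain ⟨rfl, rfl⟩ : u = [] ∧ v = [] := by simpa using h.symm
    exact ⟨[], [], rfl, rfl, rfl, rfl⟩
  | cons a w ih =>
    intro u v h
    rcases u with _ | ⟨b, u⟩
    · exact ⟨[], a :: w, rfl, rfl, h, rfl⟩
    · cases hk : k a
      · rw [List.filter_cons_of_neg (by simp [hk])] at h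
        obtain ⟨u', v', rfl, h2, h3, h4⟩ := ih _ _ h
        refine ⟨a :: u', v', rfl, by simp [hk, h2], h3, ?_⟩
        rcases u' with _ | ⟨c, u'⟩
        · simp at h2
        · rw [← h4]; simp [List.getLast?_cons_cons]
      · rw [List.filter_cons_of_pos hk] at h
        obtain ⟨rfl, h1⟩ := List.cons.inj h
        obtain ⟨u', v', rfl, h2, h3, h4⟩ := ih u v h1
        refine ⟨a :: u', v', rfl, by simp [hk, h2], h3, ?_⟩
        simp only [List.getLast?_cons, h4]

lemma pair {k : Pt → Bool} {w W0 : List Pt} (hn : w.Nodup) {p q : Pt} (h : Next w p q)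
    (hp : k p = true) (hq : k q = true) (h0 : W0.filter k = w.filter fun e => e ≠ p ∧ e ≠ q) :
    ∃ W : List Pt, W.filter k = w ∧ (W.filter fun e => e ≠ p ∧ e ≠ q) = W0 ∧ Next W p q ∧
      ∀ a b, Next W0 a b → (k a = false ∨ Next w a b) → Next W a b := by
  have hp0 : p ∉ W0 := fun h' => by
    have : p ∈ W0.filter k := List.mem_filter.2 ⟨h', hp⟩
    simp [h0] at this
  have hq0 : q ∉ W0 := fun h' => by
    have : q ∈ W0.filter k := List.mem_filter.2 ⟨h', hq⟩
    simp [h0] at this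
  obtain ⟨u, v, rfl⟩ := h
  have hn' := List.nodup_append.1 hn
  obtain ⟨-, h2, h3⟩ := hn'
  simp only [List.nodup_cons, List.mem_cons, not_or] at h2
  have hu : u.filter (fun e => e ≠ p ∧ e ≠ q) = u := List.filter_eq_self.2 fun e he => by
    simpa using ⟨h3 e he _ (by simp), h3 e he _ (by simp)⟩
  have hv : v.filter (fun e => e ≠ p ∧ e ≠ q) = v := List.filter_eq_self.2 fun e he => by
    simpa using ⟨fun h' => h2.1.2 (h' ▸ he), fun h' => h2.2.1 (h' ▸ he)⟩
  rw [List.filter_append, hu, List.filter_cons_of_neg (by simp), List.filter_cons_of_neg (by simp),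
    hv] at h0
  obtain ⟨u', v', rfl, h4, h5, h6⟩ := split k _ _ _ h0
  refine ⟨u' ++ p :: q :: v', by simp [h4, h5, hp, hq], ?_, ⟨_, _, rfl⟩, fun a b h7 h8 => ?_⟩
  · rw [List.filter_append, List.filter_cons_of_neg (by simp), List.filter_cons_of_neg (by simp),
      ← List.filter_append]
    refine List.filter_eq_self.2 fun e he => ?_
    simpa using ⟨fun h' => hp0 (h' ▸ he), fun h' => hq0 (h' ▸ he)⟩
  · have h9 : u'.getLast? ≠ some a := by
      rw [h6]
      intro h9
      obtain ⟨u1, rfl⟩ := List.getLast?_eq_some_iff.1 h9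
      rcases h8 with h8 | ⟨x, y, h8⟩
      · have : a ∈ u'.filter k := by simp [h4]
        simp [h8] at this
      · obtain ⟨-, h10⟩ := cancel (u := u1) (by simpa using hn) (by simpa using h8)
        exact hp0 ((List.cons.inj h10).1 ▸ h7.mem.2)
    rcases h7.split h9 with h7 | h7
    · exact h7.left _
    · exact (h7.right [p, q]).right _

lemma pair' {k : Pt → Bool} {w W0 : List Pt} (hn : w.Nodup) {p q : Pt} (h : Adj w p q)
    (hp : k p = true) (hq : k q = true) (h0 : W0.filter k = w.filter fun e => e ≠ p ∧ e ≠ q) :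
    ∃ W : List Pt, W.filter k = w ∧ (W.filter fun e => e ≠ p ∧ e ≠ q) = W0 ∧ Adj W p q ∧
      ∀ a b, Next W0 a b → (k a = false ∨ Next w a b) → Next W a b := by
  rcases h with h | h
  · obtain ⟨W, h1, h2, h3, h4⟩ := pair hn h hp hq h0
    exact ⟨W, h1, h2, Or.inl h3, h4⟩
  · simp only [and_comm (a := _ ≠ p)] at h0 ⊢
    obtain ⟨W, h1, h2, h3, h4⟩ := pair hn h hq hp h0
    exact ⟨W, h1, h2, Or.inr h3, h4⟩

def Del (s : ℕ → ℤˣ) (w w' : List Pt) : Prop :=
  (∃ c, Adj w (c, true) (c, false) ∧ w' = w.filter (fun e => e.1 ≠ c)) ∨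
  ∃ c d, s c = -s d ∧ Adj w (c, true) (d, true) ∧ Adj w (c, false) (d, false) ∧
    w' = w.filter (fun e => e.1 ≠ c ∧ e.1 ≠ d)

abbrev RT (s : ℕ → ℤˣ) := Relation.ReflTransGen (Del s)

lemma Del.sub {s : ℕ → ℤˣ} {w w' : List Pt} (h : Del s w w') : w'.Sublist w := by
  rcases h with ⟨c, -, rfl⟩ | ⟨c, d, -, -, -, rfl⟩ <;> exact List.filter_sublist

lemma RT.sub {s : ℕ → ℤˣ} {w w' : List Pt} (h : RT s w w') : w'.Sublist w := by
  induction h with
  | refl => exact List.Sublist.refl _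
  | tail _ h ih => exact h.sub.trans ih

lemma f1 (c : ℕ) : (fun e : Pt => decide (e.1 ≠ c)) =
    fun e => decide (e ≠ (c, true) ∧ e ≠ (c, false)) := by
  funext ⟨e, b⟩
  cases b <;> simp

lemma f2 (c d : ℕ) (w : List Pt) : w.filter (fun e => e.1 ≠ c ∧ e.1 ≠ d) =
    (w.filter fun e => e ≠ (c, false) ∧ e ≠ (d, false)).filter
      fun e => e ≠ (c, true) ∧ e ≠ (d, true) := by
  rw [List.filter_filter]
  congr 1
  funext ⟨e, b⟩
  cases b <;> simp

lemma ins_step {k : Pt → Bool} {s : ℕ → ℤˣ} {w w' W0 : List Pt} (hn : w.Nodup)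
    (hk : ∀ e ∈ w, k e = true) (h : Del s w w') (h0 : W0.filter k = w') :
    ∃ W : List Pt, W.filter k = w ∧ Del s W W0 ∧ (W.filter fun e => !k e) = (W0.filter fun e => !k e) ∧
      ∀ a b, Next W0 a b → k a = false → Next W a b := by
  have aux : ∀ (W : List Pt) (p q : Pt), p ∈ w → q ∈ w → (W.filter fun e => !k e) =
      (W.filter fun e => e ≠ p ∧ e ≠ q).filter fun e => !k e := by
    intro W p q hp hq
    rw [List.filter_filter]
    congr 1
    funext e
    by_cases h1 : e = p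
    · simp [h1, hk p hp]
    · by_cases h2 : e = q
      · simp [h2, hk q hq]
      · simp [h1, h2]
  rcases h with ⟨c, h1, rfl⟩ | ⟨c, d, hs, h1, h2, rfl⟩
  · rw [f1] at h0
    obtain ⟨W, a1, a2, a3, a4⟩ := pair' hn h1 (hk _ h1.mem.1) (hk _ h1.mem.2) h0
    refine ⟨W, a1, Or.inl ⟨c, a3, by rw [f1, a2]⟩, ?_, fun a b h3 h4 => a4 a b h3 (Or.inl h4)⟩
    rw [← a2, ← aux W _ _ h1.mem.1 h1.mem.2]
  · rw [f2] at h0
    have h1' : Adj (w.filter fun e => e ≠ (c, false) ∧ e ≠ (d, false)) (c, true) (d, true) :=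
      h1.imp (fun h => h.filter (by simp) (by simp)) fun h => h.filter (by simp) (by simp)
    obtain ⟨M, a1, a2, a3, a4⟩ := pair' (hn.filter _) h1' (hk _ h1.mem.1) (hk _ h1.mem.2) h0
    obtain ⟨W, b1, b2, b3, b4⟩ := pair' hn h2 (hk _ h2.mem.1) (hk _ h2.mem.2) a1
    refine ⟨W, b1, Or.inr ⟨c, d, hs, ?_, b3, by rw [f2, b2, a2]⟩, ?_,
      fun a b h3 h4 => b4 a b (a4 a b h3 (Or.inl h4)) (Or.inl h4)⟩
    · have hM : ∀ a b, k a = true → k b = true → Next M a b → Adj w a b → Next W a b := by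
        rintro a b ha hb h3 (h4 | h4)
        · exact b4 a b h3 (Or.inr h4)
        · have h5 := h3.filter ha hb
          rw [a1] at h5
          obtain ⟨x, y, rfl⟩ := h4
          obtain ⟨m1, m2⟩ := h5.mem
          have h6 := Next.filter (w := x ++ b :: a :: y) (k := fun e => e ≠ (c, false) ∧ e ≠ (d, false))
            ⟨x, y, rfl⟩ (List.mem_filter.1 m2).2 (List.mem_filter.1 m1).2
          exfalso
          have hn2 := hn.filter fun e => e ≠ (c, false) ∧ e ≠ (d, false)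
          obtain ⟨x1, y1, e1⟩ := h5
          obtain ⟨x2, y2, e2⟩ := h6
          rw [e1] at hn2 e2
          obtain ⟨e3, -⟩ := cancel (x := x2 ++ [b]) hn2 (by simpa using e2)
          exact (List.nodup_append.1 hn2).2.2 b (by simp [e3]) b (by simp) rfl
      rcases a3 with a3 | a3
      · exact Or.inl (hM _ _ (hk _ h1.mem.1) (hk _ h1.mem.2) a3 h1)
      · exact Or.inr (hM _ _ (hk _ h1.mem.2) (hk _ h1.mem.1) a3 h1.symm)
    · rw [← a2, ← b2, ← aux _ _ _ h1.mem.1 h1.mem.2, ← aux W _ _ h2.mem.1 h2.mem.2]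

lemma ins {k : Pt → Bool} {s : ℕ → ℤˣ} {w wA : List Pt} (hn : w.Nodup)
    (hk : ∀ e ∈ w, k e = true) (h : RT s w (wA.filter k)) :
    ∃ W : List Pt, W.filter k = w ∧ RT s W wA ∧ (W.filter fun e => !k e) = (wA.filter fun e => !k e) ∧
      ∀ a b, Next wA a b → k a = false → Next W a b := by
  induction h using Relation.ReflTransGen.head_induction_on with
  | refl => exact ⟨wA, rfl, .refl, rfl, fun _ _ h _ => h⟩
  | head h _ ih =>
    obtain ⟨W0, a1, a2, a3, a4⟩ := ih (hn.sublist h.sub) fun e he => hk e (h.sub.subset he)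
    obtain ⟨W, b1, b2, b3, b4⟩ := ins_step hn hk h a1
    exact ⟨W, b1, a2.head b2, b3.trans a3, fun a b h1 h2 => b4 a b (a4 a b h1 h2) h2⟩

lemma rot {s : ℕ → ℤˣ} {w u v : List Pt} (h : RT s w (v ++ u)) :
    ∃ V U, w = V ++ U ∧ RT s (U ++ V) (u ++ v) := by
  induction h using Relation.ReflTransGen.head_induction_on with
  | refl => exact ⟨v, u, rfl, .refl⟩
  | @head w w' h _ ih =>
    obtain ⟨V, U, rfl, h2⟩ := ih
    have key : ∀ k : Pt → Bool, V ++ U = w.filter k → ∃ V' U', w = V' ++ U' ∧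
        U ++ V = (U' ++ V').filter k ∧ ∀ a b, k a = false → k b = false →
          Adj w a b → Adj (U' ++ V') a b := by
      intro k hk
      obtain ⟨V', U', rfl, h3, h4, h5⟩ := split k _ _ _ hk.symm
      have h6 : ∀ a b, k a = false → Next (V' ++ U') a b → Next (U' ++ V') a b := by
        intro a b ha h6
        have : V'.getLast? ≠ some a := by
          rw [h5]
          intro h7
          have : a ∈ V'.filter k := h3 ▸ List.mem_of_getLast? h7
          simp [ha] at this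
        rcases h6.split this with h6 | h6
        · exact h6.right _
        · exact h6.left _
      exact ⟨V', U', rfl, by rw [List.filter_append, h3, h4],
        fun a b ha hb h7 => h7.imp (h6 a b ha) (h6 b a hb)⟩
    rcases h with ⟨c, h3, h4⟩ | ⟨c, d, hs, h3, h4, h5⟩
    · obtain ⟨V', U', a1, a2, a3⟩ := key _ h4
      exact ⟨V', U', a1, h2.head (Or.inl ⟨c, a3 _ _ (by simp) (by simp) h3, a2⟩)⟩
    · obtain ⟨V', U', a1, a2, a3⟩ := key _ h5
      exact ⟨V', U', a1, h2.head (Or.inr ⟨c, d, hs, a3 _ _ (by simp) (by simp) h3,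
        a3 _ _ (by simp) (by simp) h4, a2⟩)⟩

end Pool.Agent.H.MP_69d501_gt
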