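import Pool.Agent.H.MP_69d501_gt.A

namespace Pool.Agent.H.MP_69d501_gt

def flip (S : Finset ℕ) (e : Pt) : Pt := if e.1 ∈ S then (e.1, !e.2) else e

def opw : Bool → Finset ℕ → List Pt → List Pt
  | true, S, w => w.map (flip S)
  | false, S, w => w.filter fun e => e.1 ∉ S

def Op (m : Bool) (S : Finset ℕ) (D E : GK) : Prop :=
  (∀ c ∈ S, (c, true) ∈ D.word) ∧ E.word = opw m S D.word ∧
    ∀ e ∈ E.word, E.sign e.1 = if e.1 ∈ S then -D.sign e.1 else D.sign e.1

lemma flip_fst (S : Finset ℕ) (e : Pt) : (flip S e).1 = e.1 := by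
  unfold flip; split_ifs <;> rfl

lemma flip_flip (S : Finset ℕ) (e : Pt) : flip S (flip S e) = e := by
  unfold flip; split_ifs <;> simp_all

lemma flip_of {S : Finset ℕ} {e : Pt} (h : e.1 ∉ S) : flip S e = e := if_neg h

lemma GK.mem (D : GK) {e : Pt} (he : e ∈ D.word) (b : Bool) : (e.1, b) ∈ D.word := by
  obtain ⟨c, b'⟩ := e
  cases b <;> cases b'
  · exact he
  · exact (D.both c).1 he
  · exact (D.both c).2 he
  · exact he

lemma opw_append (m : Bool) (S : Finset ℕ) (u v : List Pt) :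
    opw m S (u ++ v) = opw m S u ++ opw m S v := by
  cases m <;> simp [opw]

lemma opw_filter (m : Bool) (S : Finset ℕ) (k : ℕ → Bool) (w : List Pt) :
    (opw m S w).filter (fun e => k e.1) = opw m S (w.filter fun e => k e.1) := by
  cases m
  · exact List.filter_comm _ _ _
  · simp only [opw, List.filter_map]
    congr 2
    funext e
    simp [flip_fst]

lemma opw_next (m : Bool) {S : Finset ℕ} {w : List Pt} {a b : Pt} (h : Next w a b) (ha : a.1 ∉ S)
    (hb : b.1 ∉ S) : Next (opw m S w) a b := by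
  cases m
  · exact h.filter (by simpa using ha) (by simpa using hb)
  · have := h.map (flip S)
    rwa [flip_of ha, flip_of hb] at this

lemma Op.mem {m : Bool} {S : Finset ℕ} {D E : GK} (h : Op m S D E) {e : Pt} (he : e ∈ E.word) :
    e ∈ D.word := by
  rw [h.2.1] at he
  cases m
  · exact (List.mem_filter.1 he).1
  · obtain ⟨a, ha, rfl⟩ := List.mem_map.1 he
    have := D.mem ha (flip S a).2
    rwa [← flip_fst S a] at this

lemma exists_op (m : Bool) {S : Finset ℕ} (D : GK) (hS : ∀ c ∈ S, (c, true) ∈ D.word) :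
    ∃ E, Op m S D E ∧ ∀ c, E.sign c = if c ∈ S then -D.sign c else D.sign c := by
  refine ⟨⟨opw m S D.word, fun c => if c ∈ S then -D.sign c else D.sign c, ?_, fun c => ?_⟩,
    ⟨hS, rfl, fun _ _ => rfl⟩, fun _ => rfl⟩
  · cases m
    · exact D.nodup.filter _
    · exact D.nodup.map (Function.LeftInverse.injective (flip_flip S))
  · cases m
    · simp [opw, D.both]
    · have : ∀ e, e ∈ D.word.map (flip S) ↔ e ∈ D.word := fun e => ⟨fun he => by
        obtain ⟨a, ha, rfl⟩ := List.mem_map.1 he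
        have := D.mem ha (flip S a).2
        rwa [← flip_fst S a] at this, fun he => List.mem_map.2 ⟨flip S e, by
          have := D.mem he (flip S e).2
          rwa [← flip_fst S e] at this, flip_flip S e⟩⟩
      simp only [opw, this, D.both]

lemma opw_map (m : Bool) (S : Finset ℕ) {g : ℕ → ℕ} (hg : g.Injective) (w : List Pt) :
    opw m (S.image g) (w.map (Prod.map g id)) = (opw m S w).map (Prod.map g id) := by
  have : ∀ c, g c ∈ S.image g ↔ c ∈ S := fun c => hg.mem_finset_image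
  cases m
  · simp only [opw, List.filter_map]
    congr 2
    funext e
    simp only [Function.comp, Prod.map_fst, this]
  · simp only [opw, List.map_map]
    congr 1
    funext e
    simp only [Function.comp, flip, Prod.map_fst, this]
    split_ifs <;> rfl

noncomputable def ren (g : ℕ → ℕ) (hg : g.Injective) (E : GK) : GK where
  word := E.word.map (Prod.map g id)
  sign n := E.sign (Function.invFun g n)
  nodup := E.nodup.map (hg.prodMap fun _ _ h => h)
  both c := by
    constructor <;> intro h <;> obtain ⟨a, ha, h1⟩ := List.mem_map.1 h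
    · exact List.mem_map.2 ⟨(a.1, false), E.mem ha _, Prod.ext (Prod.ext_iff.1 h1).1 rfl⟩
    · exact List.mem_map.2 ⟨(a.1, true), E.mem ha _, Prod.ext (Prod.ext_iff.1 h1).1 rfl⟩

lemma ren_sign {g : ℕ → ℕ} (hg : g.Injective) (E : GK) (c : ℕ) :
    (ren g hg E).sign (g c) = E.sign c := by
  simp only [ren, Function.leftInverse_invFun hg c]

lemma RT.mapg {s s' : ℕ → ℤˣ} {g : ℕ → ℕ} (hg : g.Injective) (hs : ∀ c, s' (g c) = s c)
    {w w' : List Pt} (h : RT s w w') :
    RT s' (w.map (Prod.map g id)) (w'.map (Prod.map g id)) := by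
  refine Relation.ReflTransGen.lift (List.map (Prod.map g id)) (fun a b h => ?_) _ _ h
  rcases h with ⟨c, h1, rfl⟩ | ⟨c, d, h0, h1, h2, rfl⟩
  · refine Or.inl ⟨g c, h1.imp (fun h => h.map _) (fun h => h.map _), ?_⟩
    rw [List.filter_map]
    congr 2
    funext e
    simp [hg.eq_iff]
  · refine Or.inr ⟨g c, g d, by rw [hs, hs, h0], h1.imp (fun h => h.map _) (fun h => h.map _),
      h2.imp (fun h => h.map _) (fun h => h.map _), ?_⟩
    rw [List.filter_map]
    congr 2
    funext e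
    simp [hg.eq_iff]

lemma RT.congr {s s' : ℕ → ℤˣ} {w w' : List Pt} (h : RT s w w') (hs : ∀ e ∈ w, s' e.1 = s e.1) :
    RT s' w w' := by
  induction h with
  | refl => exact .refl
  | tail h1 h2 ih =>
    refine ih.tail ?_
    rcases h2 with h2 | ⟨c, d, h0, h2, h3⟩
    · exact Or.inl h2
    · exact Or.inr ⟨c, d, by
        rw [hs _ (RT.sub h1 |>.subset h2.mem.1), hs _ (RT.sub h1 |>.subset h2.mem.2), h0], h2, h3⟩

lemma RT.flp {s : ℕ → ℤˣ} {S : Finset ℕ} {w w' : List Pt} (h : RT s w w')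
    (hS : ∀ c ∈ S, (c, true) ∈ w') :
    RT (fun c => if c ∈ S then -s c else s c) (w.map (flip S)) (w'.map (flip S)) := by
  induction h using Relation.ReflTransGen.head_induction_on with
  | refl => exact .refl
  | @head a b h1 h2 ih =>
    refine ih.head ?_
    have h3 : ∀ c ∈ S, (c, true) ∈ b := fun c hc => (RT.sub h2).subset (hS c hc)
    have h4 : ∀ (p q : Pt), p.1 ∉ S → q.1 ∉ S → Adj a p q → Adj (a.map (flip S)) p q :=
      fun p q hp hq h => h.imp (fun h => opw_next true h hp hq) fun h => opw_next true h hq hp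
    rcases h1 with ⟨c, h1, rfl⟩ | ⟨c, d, h0, h1, h5, rfl⟩
    · have hc : c ∉ S := fun hc => by simpa using h3 c hc
      exact Or.inl ⟨c, h4 _ _ hc hc h1, (opw_filter true S (fun n => n ≠ c) a).symm⟩
    · have hc : c ∉ S := fun hc => by simpa using h3 c hc
      have hd : d ∉ S := fun hd => by simpa using h3 d hd
      exact Or.inr ⟨c, d, by simp [hc, hd, h0], h4 _ _ hc hd h1, h4 _ _ hc hd h5,
        (opw_filter true S (fun n => n ≠ c ∧ n ≠ d) a).symm⟩

def subg (E : GK) (k : ℕ → Bool) : GK where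
  word := E.word.filter fun e => k e.1
  sign := E.sign
  nodup := E.nodup.filter _
  both c := by simp [E.both]

lemma rename_id {D E : GK} (h : E.word = D.word) (hs : SameSign D E) : Rename D E :=
  ⟨id, by simp [h], fun e he => hs e (h ▸ he)⟩

lemma RT.eqv {s : ℕ → ℤˣ} {w w' : List Pt} (h : RT s w w') (A : GK) (hA : A.word = w') :
    ∀ E : GK, E.word = w → E.sign = s → SameSign E A → Eqv E A := by
  induction h using Relation.ReflTransGen.head_induction_on with
  | refl => exact fun E h1 _ h3 => .rel _ _ (Or.inl (rename_id (hA.trans h1.symm) h3))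
  | head h1 _ ih =>
    rintro E rfl rfl h3
    rcases h1 with ⟨c, h1, rfl⟩ | ⟨c, d, h0, h1, h5, rfl⟩
    · exact .trans _ (subg E fun n => n ≠ c) _
        (.rel _ _ (Or.inr (Or.inr (Or.inl ⟨c, h1, rfl, fun _ _ => rfl⟩))))
        (ih (subg E fun n => n ≠ c) rfl rfl h3)
    · exact .trans _ (subg E fun n => n ≠ c ∧ n ≠ d) _ (.rel _ _ (Or.inr (Or.inr (Or.inr (Or.inl
        ⟨c, d, h0, h1, h5, rfl, fun _ _ => rfl⟩))))) (ih (subg E fun n => n ≠ c ∧ n ≠ d) rfl rfl h3)

lemma bound (A : GK) : ∃ N, ∀ e ∈ A.word, e.1 < N :=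
  ⟨(A.word.map Prod.fst).sum + 1, fun _ he =>
    Nat.lt_succ_of_le (List.le_sum_of_mem (List.mem_map_of_mem he))⟩

lemma exists_inv {A A' : GK} {f : ℕ → ℕ} (h : A'.word = A.word.map (Prod.map f id)) {N : ℕ}
    (hN : ∀ e ∈ A.word, e.1 < N) : ∃ g : ℕ → ℕ, g.Injective ∧ (∀ e ∈ A.word, g (f e.1) = e.1) ∧
      ∀ n, (∃ e ∈ A.word, f e.1 = n) ∨ N ≤ g n := by
  classical
  have hn := A'.nodup
  rw [h] at hn
  have hi : ∀ a ∈ A.word, ∀ b ∈ A.word, f a.1 = f b.1 → a.1 = b.1 := fun a ha b hb hab =>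
    (Prod.ext_iff.1 (List.inj_on_of_nodup_map hn (A.mem ha true) (A.mem hb true) (by simp [hab]))).1
  refine ⟨fun n => if h : ∃ e ∈ A.word, f e.1 = n then h.choose.1 else n + N, fun a b hab => ?_,
    fun e he => ?_, fun n => ?_⟩
  · simp only [] at hab
    split_ifs at hab with h1 h2 h2
    · rw [← h1.choose_spec.2, hab, h2.choose_spec.2]
    · have := hN _ h1.choose_spec.1
      omega
    · have := hN _ h2.choose_spec.1
      omega
    · omega
  · have h1 : ∃ e' ∈ A.word, f e'.1 = f e.1 := ⟨e, he, rfl⟩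
    simp only [dif_pos h1]
    exact hi _ h1.choose_spec.1 _ he h1.choose_spec.2
  · by_cases h1 : ∃ e ∈ A.word, f e.1 = n
    · exact Or.inl h1
    · simp only [dif_neg h1]
      exact Or.inr (Nat.le_add_left _ _)

lemma map_inv {w : List Pt} {f g : ℕ → ℕ} (h : ∀ e ∈ w, g (f e.1) = e.1) :
    (w.map (Prod.map f id)).map (Prod.map g id) = w := by
  rw [List.map_map, List.map_congr_left (g := id), List.map_id]
  intro e he
  exact Prod.ext (h e he) rfl

lemma Rename.symm {A A' : GK} (h : Rename A A') : Rename A' A := by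
  obtain ⟨f, h1, h2⟩ := h
  obtain ⟨N, hN⟩ := bound A
  obtain ⟨g, -, h3, -⟩ := exists_inv h1 hN
  refine ⟨g, by rw [h1, map_inv h3], fun e he => ?_⟩
  rw [h1] at he
  obtain ⟨a, ha, rfl⟩ := List.mem_map.1 he
  simp only [Prod.map_fst, h3 a ha, h2 a ha]

def Pr (m : Bool) (Z : GK) (n : ℕ) (A : GK) : Prop :=
  ∃ E S F, SameSign E A ∧ RT E.sign E.word A.word ∧ Op m S E F ∧ Eqv F Z ∧ S.card ≤ n

variable {m : Bool} {Z : GK} {n : ℕ}

lemma pr_ren {A A' : GK} (h : Rename A A') (hp : Pr m Z n A') {N : ℕ}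
    (hN : ∀ e ∈ A.word, e.1 < N) : ∃ E S F, SameSign E A ∧ RT E.sign E.word A.word ∧ Op m S E F ∧
      Eqv F Z ∧ S.card ≤ n ∧ ∀ e ∈ E.word, e ∈ A.word ∨ N ≤ e.1 := by
  obtain ⟨f, h1, h2⟩ := h
  obtain ⟨g, hg, h3, h4⟩ := exists_inv h1 hN
  obtain ⟨E, S, F, a1, a2, a3, a4, a5⟩ := hp
  refine ⟨ren g hg E, S.image g, ren g hg F, fun e he => ?_, ?_, ⟨fun c hc => ?_, ?_, fun e he => ?_⟩,
    ?_, Finset.card_image_le.trans a5, fun e he => ?_⟩
  · rw [← h3 e he, ren_sign, h3 e he, ← h2 e he]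
    exact a1 (Prod.map f id e) (h1 ▸ List.mem_map_of_mem he)
  · have := a2.mapg hg (ren_sign hg E)
    rwa [h1, map_inv h3] at this
  · obtain ⟨d, hd, rfl⟩ := Finset.mem_image.1 hc
    exact List.mem_map_of_mem (f := Prod.map g id) (a3.1 d hd)
  · exact (congrArg _ a3.2.1).trans (opw_map m S hg _).symm
  · obtain ⟨a, ha, rfl⟩ := List.mem_map.1 he
    simp only [Prod.map_fst, ren_sign, hg.mem_finset_image, a3.2.2 a ha]
  · exact .trans _ _ _ (.symm _ _ (.rel _ _ (Or.inl ⟨g, rfl, fun e _ => ren_sign hg F _⟩))) a4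
  · obtain ⟨a, -, rfl⟩ := List.mem_map.1 he
    rcases h4 a.1 with ⟨b, hb, h5⟩ | h5
    · left
      have := A.mem hb a.2
      rwa [← h3 b hb, h5] at this
    · exact Or.inr h5

lemma pr_ren' {A A' : GK} (h : Rename A A') (hp : Pr m Z n A') : Pr m Z n A := by
  obtain ⟨N, hN⟩ := bound A
  obtain ⟨E, S, F, a1, a2, a3, a4, a5, -⟩ := pr_ren h hp hN
  exact ⟨E, S, F, a1, a2, a3, a4, a5⟩

lemma pr_ext {G A : GK} (h1 : SameSign G A) (h2 : RT G.sign G.word A.word) (hp : Pr m Z n G) :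
    Pr m Z n A := by
  obtain ⟨E, S, F, a1, a2, a3⟩ := hp
  exact ⟨E, S, F, fun e he => (h1 e he).trans (a1 e (h2.sub.subset he)),
    a2.trans (h2.congr fun e he => (a1 e he).symm), a3⟩

lemma ins_gk (G E : GK) (k : ℕ → Bool) (hk : ∀ e ∈ E.word, k e.1 = true)
    (h : RT E.sign E.word (G.word.filter fun e => k e.1))
    (hs : ∀ e ∈ G.word, k e.1 = true → G.sign e.1 = E.sign e.1) :
    ∃ E' : GK, E.word = E'.word.filter (fun e => k e.1) ∧ RT E'.sign E'.word G.word ∧
      SameSign E' G ∧ SameSign E' E ∧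
      ∀ a b, Next G.word a b → k a.1 = false → Next E'.word a b := by
  obtain ⟨W, h1, h2, h3, h4⟩ := ins (s := fun c => if k c then E.sign c else G.sign c) E.nodup hk
    (h.congr fun e he => by simp [hk e he])
  have hm : ∀ e, e ∈ W ↔ if k e.1 then e ∈ E.word else e ∈ G.word := by
    intro e
    split_ifs with h5
    · simp [← h1, h5]
    · have := congrArg (e ∈ ·) h3
      simpa [h5] using this
  refine ⟨⟨W, fun c => if k c then E.sign c else G.sign c, ?_, fun c => ?_⟩, h1.symm, h2,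
    fun e he => ?_, fun e he => ?_, h4⟩
  · refine (List.filter_append_perm (fun e => k e.1) W).nodup_iff.1 (List.nodup_append.2 ⟨?_, ?_, ?_⟩)
    · rw [h1]; exact E.nodup
    · rw [h3]; exact G.nodup.filter _
    · rintro a ha b hb rfl
      simp only [List.mem_filter] at ha hb
      simp [ha.2] at hb
  · simp only [hm, E.both, G.both]
  · simp only []
    split_ifs with h5
    · exact hs e he h5
    · rfl
  · simp [hk e he]

lemma pr_block (G A : GK) (k : ℕ → Bool) (hA : A.word = G.word.filter fun e => k e.1)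
    (hs : SameSign G A) (hk : ∀ c, k c = false → (c, true) ∈ G.word)
    (canc : ∀ W W' : GK, (∀ c, k c = false → W.sign c = G.sign c) →
      (∀ a b, Next G.word a b → k a.1 = false → k b.1 = false → Next W.word a b) →
      W'.word = W.word.filter (fun e => k e.1) → SameSign W W' → Eqv W W')
    (hp : Pr m Z n A) : Pr m Z n G := by
  obtain ⟨N, hN⟩ := bound G
  have hAG : ∀ e ∈ A.word, e ∈ G.word ∧ k e.1 = true := fun e he => List.mem_filter.1 (hA ▸ he)
  obtain ⟨E, S, F, a1, a2, a3, a4, a5, a6⟩ := pr_ren (rename_id rfl fun _ _ => rfl) hp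
    fun e he => hN e (hAG e he).1
  have hE : ∀ e ∈ E.word, k e.1 = true := fun e he => by
    rcases a6 e he with h | h
    · exact (hAG e h).2
    · by_contra h1
      have := hN _ (hk e.1 (by simpa using h1))
      simp only [] at this
      omega
  obtain ⟨E', b1, b2, b3, b4, b5⟩ := ins_gk G E k hE (hA ▸ a2) fun e he h1 => by
    have : e ∈ A.word := hA ▸ List.mem_filter.2 ⟨he, h1⟩
    rw [← hs e this, a1 e this]
  obtain ⟨F', c1, c2⟩ := exists_op m E' (S := S) fun c hc => (List.mem_filter.1 (b1 ▸ a3.1 c hc)).1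
  have hS : ∀ c, k c = false → c ∉ S := fun c hc h => by simpa [hc] using hE _ (a3.1 c h)
  refine ⟨E', S, F', b3, b2, c1, .trans _ _ _ (canc F' F (fun c hc => ?_) (fun a b h1 h2 h3 => ?_) ?_
    fun e he => ?_) a4, a5⟩
  · rw [c2, if_neg (hS c hc), b3 _ (hk c hc)]
  · rw [c1.2.1]
    exact opw_next m (b5 a b h1 h2) (hS _ h2) (hS _ h3)
  · rw [c1.2.1, opw_filter, ← b1, a3.2.1]
  · rw [c2, a3.2.2 e he, b4 e (a3.mem he)]

lemma pr_rot {A A' : GK} (h : Rotate A A') (hp : Pr m Z n A') : Pr m Z n A := by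
  obtain ⟨u, v, h1, h2, h3⟩ := h
  obtain ⟨E, S, F, a1, a2, a3, a4, a5⟩ := hp
  obtain ⟨V, U, b1, b2⟩ := rot (h2 ▸ a2)
  have hp : (U ++ V).Perm E.word := b1 ▸ List.perm_append_comm
  let E' : GK := ⟨U ++ V, E.sign, hp.nodup_iff.2 E.nodup, fun c => by simp only [hp.mem_iff, E.both]⟩
  obtain ⟨F', c1, c2⟩ := exists_op m E' (S := S) fun c hc => hp.mem_iff.2 (a3.1 c hc)
  refine ⟨E', S, F', fun e he => ?_, h1 ▸ b2, c1, .trans _ _ _ (.rel _ _ (Or.inr (Or.inl
    ⟨opw m S U, opw m S V, c1.2.1.trans (opw_append _ _ _ _), ?_, fun e he => ?_⟩))) a4, a5⟩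
  · have : e ∈ A'.word := by
      rw [h1] at he
      rw [h2]
      exact List.perm_append_comm.mem_iff.1 he
    rw [← h3 e this, a1 e this]
  · rw [a3.2.1, b1, opw_append]
  · rw [c2, a3.2.2 e he]

lemma Rotate.symm {A A' : GK} (h : Rotate A A') : Rotate A' A := by
  obtain ⟨u, v, h1, h2, h3⟩ := h
  refine ⟨v, u, h2, h1, fun e he => (h3 e ?_).symm⟩
  rw [h1] at he
  rw [h2]
  exact List.perm_append_comm.mem_iff.1 he

lemma pr_r1 {A A' : GK} (h : R1 A A') : Pr m Z n A ↔ Pr m Z n A' := by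
  obtain ⟨c, h1, h2, h3⟩ := h
  refine ⟨pr_ext h3 (.single (Or.inl ⟨c, h1, h2⟩)), pr_block A A' (fun n => n ≠ c) h2 h3 ?_ ?_⟩
  · intro d hd
    obtain rfl : d = c := by simpa using hd
    exact h1.mem.1
  · intro W W' _ b2 b3 b4
    exact .rel _ _ (Or.inr (Or.inr (Or.inl ⟨c, h1.imp (fun h => b2 _ _ h (by simp) (by simp))
      (fun h => b2 _ _ h (by simp) (by simp)), b3, b4⟩)))

lemma pr_r2 {A A' : GK} (h : R2 A A') : Pr m Z n A ↔ Pr m Z n A' := by
  obtain ⟨c, d, h0, h1, h1', h2, h3⟩ := h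
  refine ⟨pr_ext h3 (.single (Or.inr ⟨c, d, h0, h1, h1', h2⟩)),
    pr_block A A' (fun n => n ≠ c ∧ n ≠ d) h2 h3 ?_ ?_⟩
  · intro x hx
    by_cases h4 : x = c
    · exact h4 ▸ h1.mem.1
    · obtain rfl : x = d := by simpa [h4] using hx
      exact h1.mem.2
  · intro W W' b1 b2 b3 b4
    exact .rel _ _ (Or.inr (Or.inr (Or.inr (Or.inl ⟨c, d,
      by rw [b1 c (by simp), b1 d (by simp), h0],
      h1.imp (fun h => b2 _ _ h (by simp) (by simp)) (fun h => b2 _ _ h (by simp) (by simp)),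
      h1'.imp (fun h => b2 _ _ h (by simp) (by simp)) (fun h => b2 _ _ h (by simp) (by simp)),
      b3, b4⟩))))

end Pool.Agent.H.MP_69d501_gt
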