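import Pool.Agent.H.MP_69d501_gt.B
import Pool.Agent.H.MP_a283c1_gt.B

namespace Pool.Agent.H.MP_69d501_gt

open Pool.Agent.H.MP_a283c1_gt (sw sw_spec sw_sw)

lemma del2 {s : ℕ → ℤˣ} {w : List Pt} {c d : ℕ} (hs : s c = -s d) (β : Bool)
    (h1 : Adj w (c, β) (d, β)) (h2 : Adj w (c, !β) (d, !β)) :
    Del s w (w.filter fun e => e.1 ≠ c ∧ e.1 ≠ d) := by
  cases β
  · exact Or.inr ⟨c, d, hs, h2, h1, rfl⟩
  · exact Or.inr ⟨c, d, hs, h1, h2, rfl⟩

def Ch (w : List Pt) (a b c d : Pt) (o : ℤˣ) : Prop := Ord w a b o ∧ Ord w b c o ∧ Ord w c d o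

lemma canc3 {s : ℕ → ℤˣ} {w : List Pt} (hn : w.Nodup) (β : Bool) {a a' b b' c c' : ℕ}
    (hd : [a, a', b, b', c, c'].Nodup) (ha : s a = -s a') (hb : s b = -s b') (hc : s c = -s c')
    {o p q : ℤˣ} (h1 : Ch w (b, β) (a, β) (a', β) (b', β) o)
    (h2 : Ch w (c, β) (a, !β) (a', !β) (c', β) p)
    (h3 : Ch w (c, !β) (b, !β) (b', !β) (c', !β) q) :
    RT s w (w.filter fun e => e.1 ∉ [a, a', b, b', c, c']) := by
  simp only [List.nodup_cons, List.mem_cons, not_or, List.not_mem_nil, not_false_eq_true,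
    and_true, List.nodup_nil] at hd
  obtain ⟨⟨d1, d2, d3, d4, d5⟩, ⟨d6, d7, d8, d9⟩, ⟨d10, d11, d12⟩, ⟨d13, d14⟩, d15⟩ := hd
  have e1 := del2 ha β h1.2.1.adj h2.2.1.adj
  have n1 := hn.filter fun e => e.1 ≠ a ∧ e.1 ≠ a'
  have g1 := h1.1.skip hn h1.2.1 h1.2.2 (k := fun e => e.1 ≠ a ∧ e.1 ≠ a')
    (by simp [Ne.symm d2, Ne.symm d6]) (by simp) (by simp) (by simp [Ne.symm d3, Ne.symm d7])
  have g2 := h2.1.skip hn h2.2.1 h2.2.2 (k := fun e => e.1 ≠ a ∧ e.1 ≠ a')
    (by simp [Ne.symm d4, Ne.symm d8]) (by simp) (by simp) (by simp [Ne.symm d5, Ne.symm d9])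
  have g3 := h3.1.filter (k := fun e => e.1 ≠ a ∧ e.1 ≠ a')
    (by simp [Ne.symm d4, Ne.symm d8]) (by simp [Ne.symm d2, Ne.symm d6])
  have g4 := h3.2.1.filter (k := fun e => e.1 ≠ a ∧ e.1 ≠ a')
    (by simp [Ne.symm d2, Ne.symm d6]) (by simp [Ne.symm d3, Ne.symm d7])
  have g5 := h3.2.2.filter (k := fun e => e.1 ≠ a ∧ e.1 ≠ a')
    (by simp [Ne.symm d3, Ne.symm d7]) (by simp [Ne.symm d5, Ne.symm d9])
  have e2 := del2 hb β g1.adj g4.adj
  have g6 := g2.filter (k := fun e => e.1 ≠ b ∧ e.1 ≠ b')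
    (by simp [Ne.symm d11, Ne.symm d13]) (by simp [Ne.symm d12, Ne.symm d14])
  have g7 := g3.skip n1 g4 g5 (k := fun e => e.1 ≠ b ∧ e.1 ≠ b')
    (by simp [Ne.symm d11, Ne.symm d13]) (by simp) (by simp) (by simp [Ne.symm d12, Ne.symm d14])
  have e3 := del2 hc β g6.adj g7.adj
  have := ((Relation.ReflTransGen.single e1).tail e2).tail e3
  rw [List.filter_filter, List.filter_filter] at this
  convert this using 2
  funext e
  rw [← Bool.decide_and, ← Bool.decide_and]
  simp only [List.mem_cons, not_or, List.not_mem_nil, not_false_eq_true, and_true, ne_eq,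
    decide_eq_decide]
  tauto

lemma flat_change {w : List Pt} (hn : w.Nodup) {a b : Pt} {o : ℤˣ} (h : Ord w a b o)
    {f g : Pt → List Pt} (h0 : ∀ e ∈ w, e ≠ a → e ≠ b → f e = g e)
    (h1 : o = 1 → f a ++ f b = g a ++ g b) (h2 : o = -1 → f b ++ f a = g b ++ g a) :
    w.flatMap f = w.flatMap g := by
  have key : ∀ a b, Next w a b → (∀ e ∈ w, e ≠ a → e ≠ b → f e = g e) → f a ++ f b = g a ++ g b →
      w.flatMap f = w.flatMap g := by
    rintro a b ⟨u, v, rfl⟩ h0 h1
    obtain ⟨-, h2, h3⟩ := List.nodup_append.1 hn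
    simp only [List.nodup_cons, List.mem_cons, not_or] at h2
    have hu : u.flatMap f = u.flatMap g := List.flatMap_congr fun e he =>
      h0 e (by simp [he]) (h3 e he _ (by simp)) (h3 e he _ (by simp))
    have hv : v.flatMap f = v.flatMap g := List.flatMap_congr fun e he =>
      h0 e (by simp [he]) (fun h' => h2.1.2 (h' ▸ he)) (fun h' => h2.2.1 (h' ▸ he))
    simp only [List.flatMap_append, List.flatMap_cons, hu, hv]
    rw [← List.append_assoc (f a), h1, List.append_assoc]
  rcases h with ⟨h, h'⟩ | ⟨h, h'⟩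
  · exact key _ _ h' h0 (h1 h)
  · exact key _ _ h' (fun e he h3 h4 => h0 e he h4 h3) (h2 h)

def sh (N : ℕ) (e : Pt) : Pt := (e.1 + N, e.2)

def piece (N : ℕ) (o : ℤˣ) (lo hi : Pt) : List Pt :=
  if o = 1 then [hi, sh N lo, sh N hi, sh (2 * N) hi, sh (2 * N) lo]
  else [sh (2 * N) lo, sh (2 * N) hi, sh N hi, sh N lo, hi]

lemma piece_ord (N : ℕ) (o : ℤˣ) (lo hi : Pt) :
    Ord (piece N o lo hi) hi (sh N lo) o ∧
    Ch (piece N o lo hi) (sh N lo) (sh N hi) (sh (2 * N) hi) (sh (2 * N) lo) o := by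
  rcases Int.units_eq_one_or o with rfl | rfl
  · exact ⟨Or.inl ⟨rfl, [], _, rfl⟩, Or.inl ⟨rfl, [_], _, rfl⟩, Or.inl ⟨rfl, [_, _], _, rfl⟩,
      Or.inl ⟨rfl, [_, _, _], _, rfl⟩⟩
  · exact ⟨Or.inr ⟨rfl, [_, _, _], _, rfl⟩, Or.inr ⟨rfl, [_, _], _, rfl⟩, Or.inr ⟨rfl, [_], _, rfl⟩,
      Or.inr ⟨rfl, [], _, rfl⟩⟩

lemma mem_piece {N : ℕ} {o : ℤˣ} {lo hi e : Pt} : e ∈ piece N o lo hi ↔
    e = hi ∨ e = sh N lo ∨ e = sh N hi ∨ e = sh (2 * N) hi ∨ e = sh (2 * N) lo := by
  unfold piece
  split_ifs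
  · simp
  · simp only [List.mem_cons, List.not_mem_nil, or_false]
    tauto

lemma ord_flat {w : List Pt} {e a b : Pt} {o : ℤˣ} (he : e ∈ w) {f : Pt → List Pt}
    (h : Ord (f e) a b o) : Ord (w.flatMap f) a b o :=
  h.imp (And.imp_right (next_flatMap he f)) (And.imp_right (next_flatMap he f))

lemma ord_piece {w : List Pt} {lo hi : Pt} {o : ℤˣ} {N : ℕ} (h : Ord w lo hi o)
    {f : Pt → List Pt} (h1 : f lo = [lo]) (h2 : f hi = piece N o lo hi) :
    Ord (w.flatMap f) lo hi o := by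
  rcases h with ⟨rfl, h⟩ | ⟨rfl, h⟩
  · exact Or.inl ⟨rfl, h.flatMap f (u := []) h1 h2⟩
  · exact Or.inr ⟨rfl, h.flatMap f (u := [_, _, _, _]) (v := []) h2 h1⟩

lemma sw_mem {w : List Pt} {x y z : ℕ} (hxy : x ≠ y) (hxz : x ≠ z) (hyz : y ≠ z)
    (h1 : Adj w (x, true) (y, true)) (h2 : Adj w (x, false) (z, true))
    (h3 : Adj w (y, false) (z, false)) (e : Pt) : e ∈ w.map (sw x y z) ↔ e ∈ w := by
  obtain ⟨s1, s2, s3, s4, s5, s6, s7⟩ := sw_spec hxy hxz hyz
  have hm : ∀ e ∈ w, sw x y z e ∈ w := by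
    rintro ⟨e, b⟩ he
    by_cases u1 : e = x
    · subst u1
      cases b
      · rw [s3]; exact h2.mem.2
      · rw [s1]; exact h1.mem.2
    by_cases u2 : e = y
    · subst u2
      cases b
      · rw [s5]; exact h3.mem.2
      · rw [s2]; exact h1.mem.1
    by_cases u3 : e = z
    · subst u3
      cases b
      · rw [s6]; exact h3.mem.1
      · rw [s4]; exact h2.mem.1
    rwa [s7 (e, b) u1 u2 u3]
  constructor
  · intro he
    obtain ⟨a, ha, rfl⟩ := List.mem_map.1 he
    exact hm a ha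
  · exact fun he => List.mem_map.2 ⟨_, hm e he, sw_sw hxy hxz hyz e⟩

lemma R3.symm {A A' : GK} (h : R3 A A') : R3 A' A := by
  obtain ⟨x, y, z, p, q, r, hxy, hxz, hyz, h1, h2, h3, h4, h5, h6, h7⟩ := h
  change A'.word = A.word.map (sw x y z) at h6
  obtain ⟨s1, s2, s3, s4, s5, s6, s7⟩ := sw_spec hxy hxz hyz
  have hm : ∀ e, e ∈ A'.word ↔ e ∈ A.word := fun e => by
    rw [h6, sw_mem hxy hxz hyz h1.adj h2.adj h3.adj]
  have ex := h7 _ ((hm _).2 h1.adj.mem.1)
  have ey := h7 _ ((hm _).2 h1.adj.mem.2)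
  have ez := h7 _ ((hm _).2 h2.adj.mem.2)
  simp only [] at ex ey ez
  refine ⟨x, y, z, -p, -q, -r, hxy, hxz, hyz, ?_, ?_, ?_, ?_, ?_, ?_,
    fun e he => (h7 e ((hm e).2 he)).symm⟩
  · have := (h1.map (sw x y z)).symm
    rwa [s1, s2, ← h6] at this
  · have := (h2.map (sw x y z)).symm
    rwa [s3, s4, ← h6] at this
  · have := (h3.map (sw x y z)).symm
    rwa [s5, s6, ← h6] at this
  · rw [ex, ey, ez, neg_mul, neg_mul, neg_mul, neg_mul, h4]
  · rw [ex, ey, ez, neg_mul, neg_mul, neg_mul, neg_mul, h5]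
  · change A.word = A'.word.map (sw x y z)
    rw [h6, List.map_map, List.map_congr_left (f := _ ∘ _) (g := id) fun e _ => sw_sw hxy hxz hyz e,
      List.map_id]

lemma canc_r3 {W W' : GK} {x y z x' y' z' : ℕ} {p q r : ℤˣ} (hd : [x, x', y, y', z, z'].Nodup)
    (h1 : Ch W.word (x, true) (y, true) (x', true) (y', true) p)
    (h2 : Ch W.word (x, false) (z, true) (x', false) (z', true) q)
    (h3 : Ch W.word (y, false) (z, false) (y', false) (z', false) r)
    (h4 : p * W.sign x * W.sign y = q * W.sign x * W.sign z)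
    (h5 : p * W.sign x * W.sign y = r * W.sign y * W.sign z)
    (hx : W.sign x = -W.sign x') (hy : W.sign y = -W.sign y') (hz : W.sign z = -W.sign z')
    (h6 : W'.word = W.word.filter fun e => e.1 ∉ [x, x', y, y', z, z']) (h7 : SameSign W W') :
    Eqv W W' := by
  have hd' := hd
  simp only [List.nodup_cons, List.mem_cons, not_or, List.not_mem_nil, not_false_eq_true,
    and_true, List.nodup_nil] at hd'
  obtain ⟨⟨d1, hxy, d3, hxz, d5⟩, ⟨d6, d7, d8, d9⟩, ⟨d10, hyz, d12⟩, ⟨d13, d14⟩, d15⟩ := hd'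
  obtain ⟨s1, s2, s3, s4, s5, s6, s7⟩ := sw_spec hxy hxz hyz
  have hm := sw_mem hxy hxz hyz h1.1.adj h2.1.adj h3.1.adj
  let W1 : GK := ⟨W.word.map (sw x y z), W.sign, W.nodup.map (sw x y z).injective,
    fun c => by simp only [hm, W.both]⟩
  have t1 : ∀ b, sw x y z (x', b) = (x', b) := fun b => s7 _ (Ne.symm d1) d6 d8
  have t2 : ∀ b, sw x y z (y', b) = (y', b) := fun b => s7 _ (Ne.symm d3) (Ne.symm d10) d13
  have t3 : ∀ b, sw x y z (z', b) = (z', b) := fun b =>
    s7 _ (Ne.symm d5) (Ne.symm d12) (Ne.symm d15)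
  have hC : ∀ {a b c d o}, Ch W.word a b c d o →
      Ch W1.word (sw x y z a) (sw x y z b) (sw x y z c) (sw x y z d) o :=
    fun h => ⟨h.1.map _, h.2.1.map _, h.2.2.map _⟩
  have g1 := hC h1
  have g2 := hC h2
  have g3 := hC h3
  simp only [s1, s2, s3, s4, s5, s6, t1, t2, t3] at g1 g2 g3
  have hr := canc3 (s := W.sign) W1.nodup true hd hx hy hz g1 g2 g3
  refine .trans _ W1 _ (.rel _ _ (Or.inr (Or.inr (Or.inr (Or.inr ⟨x, y, z, p, q, r, hxy, hxz, hyz,
    h1.1, h2.1, h3.1, h4, h5, rfl, fun _ _ => rfl⟩))))) (hr.eqv W' ?_ W1 rfl rfl h7)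
  have hk : ∀ e : Pt, (sw x y z e).1 ∉ [x, x', y, y', z, z'] ↔ e.1 ∉ [x, x', y, y', z, z'] := by
    rintro ⟨e, b⟩
    by_cases u1 : e = x
    · subst u1; cases b <;> simp [s1, s3]
    by_cases u2 : e = y
    · subst u2; cases b <;> simp [s2, s5]
    by_cases u3 : e = z
    · subst u3; cases b <;> simp [s4, s6]
    rw [s7 (e, b) u1 u2 u3]
  rw [h6, List.filter_map, List.map_congr_left (g := id), List.map_id]
  · congr 1
    funext e
    simp only [Function.comp, hk]
  · intro e he
    have := (List.mem_filter.1 he).2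
    simp only [Function.comp, hk, decide_eq_true_eq] at this
    simp only [List.mem_cons, not_or] at this
    exact s7 e this.1 this.2.2.1 this.2.2.2.2.1

variable {m : Bool} {Z : GK} {n : ℕ}

lemma pr_r3 {A A' : GK} (h : R3 A A') (hp : Pr m Z n A') : Pr m Z n A := by
  obtain ⟨x, y, z, p, q, r, hxy, hxz, hyz, h1, h2, h3, h4, h5, h6, h7⟩ := h
  change A'.word = A.word.map (sw x y z) at h6
  obtain ⟨s1, s2, s3, s4, s5, s6, s7⟩ := sw_spec hxy hxz hyz
  obtain ⟨N, hN⟩ := bound A
  have hx : x < N := hN _ h1.adj.mem.1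
  have hy : y < N := hN _ h1.adj.mem.2
  have hz : z < N := hN _ h2.adj.mem.2
  have hm : ∀ e, e ∈ A'.word ↔ e ∈ A.word := fun e => by
    rw [h6, sw_mem hxy hxz hyz h1.adj h2.adj h3.adj]
  obtain ⟨ψ, hψ⟩ : ∃ ψ : Pt → List Pt, ψ = fun e => if e = (y, true) then
      piece N p (x, true) (y, true) else if e = (z, true) then piece N q (x, false) (z, true)
      else if e = (z, false) then piece N r (y, false) (z, false) else [e] := ⟨_, rfl⟩
  have p1 : ψ (y, true) = piece N p (x, true) (y, true) := by simp [hψ]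
  have p2 : ψ (z, true) = piece N q (x, false) (z, true) := by simp [hψ, hyz.symm]
  have p3 : ψ (z, false) = piece N r (y, false) (z, false) := by simp [hψ]
  have p4 : ∀ e, e ≠ (y, true) → e ≠ (z, true) → e ≠ (z, false) → ψ e = [e] :=
    fun e u1 u2 u3 => by simp [hψ, u1, u2, u3]
  have pc : ∀ a, a = (y, true) ∨ a = (z, true) ∨ a = (z, false) ∨ ψ a = [a] := fun a => by
    by_contra hc
    push Not at hc
    exact hc.2.2.2 (p4 a hc.1 hc.2.1 hc.2.2.1)
  have hmem : ∀ e, e ∈ A.word.flatMap ψ ↔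
      e ∈ A.word ∨ e.1 ∈ [z + N, z + 2 * N, y + N, y + 2 * N, x + N, x + 2 * N] := by
    intro e
    rw [List.mem_flatMap]
    constructor
    · rintro ⟨a, ha, he⟩
      rcases pc a with rfl | rfl | rfl | h
      · rw [p1, mem_piece] at he
        rcases he with rfl | rfl | rfl | rfl | rfl <;> simp [sh, ha]
      · rw [p2, mem_piece] at he
        rcases he with rfl | rfl | rfl | rfl | rfl <;> simp [sh, ha]
      · rw [p3, mem_piece] at he
        rcases he with rfl | rfl | rfl | rfl | rfl <;> simp [sh, ha]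
      · rw [h, List.mem_singleton] at he
        exact Or.inl (he ▸ ha)
    · rintro (he | he)
      · refine ⟨e, he, ?_⟩
        rcases pc e with rfl | rfl | rfl | h
        · simp [p1, mem_piece]
        · simp [p2, mem_piece]
        · simp [p3, mem_piece]
        · simp [h]
      · obtain ⟨e, b⟩ := e
        simp only [List.mem_cons, List.not_mem_nil, or_false] at he
        rcases he with rfl | rfl | rfl | rfl | rfl | rfl <;> cases b <;>
          first
          | (refine ⟨_, h1.adj.mem.2, ?_⟩; rw [p1, mem_piece]; simp [sh]; done)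
          | (refine ⟨_, h2.adj.mem.2, ?_⟩; rw [p2, mem_piece]; simp [sh]; done)
          | (refine ⟨_, h3.adj.mem.2, ?_⟩; rw [p3, mem_piece]; simp [sh]; done)
  have hnd : (A.word.flatMap ψ).Nodup := by
    have q1 : ∀ a e : Pt, e ∈ ψ a → e = a ∨
        (a = (y, true) ∧ e.2 = true ∧ (e.1 = x + N ∨ e.1 = y + N ∨ e.1 = y + 2 * N ∨ e.1 = x + 2 * N)) ∨
        (a = (z, true) ∧ ((e.2 = false ∧ (e.1 = x + N ∨ e.1 = x + 2 * N)) ∨
          (e.2 = true ∧ (e.1 = z + N ∨ e.1 = z + 2 * N)))) ∨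
        (a = (z, false) ∧ e.2 = false ∧
          (e.1 = y + N ∨ e.1 = z + N ∨ e.1 = z + 2 * N ∨ e.1 = y + 2 * N)) := by
      intro a e he
      rcases pc a with rfl | rfl | rfl | h
      · rw [p1, mem_piece] at he
        rcases he with rfl | rfl | rfl | rfl | rfl <;> simp [sh]
      · rw [p2, mem_piece] at he
        rcases he with rfl | rfl | rfl | rfl | rfl <;> simp [sh]
      · rw [p3, mem_piece] at he
        rcases he with rfl | rfl | rfl | rfl | rfl <;> simp [sh]
      · rw [h, List.mem_singleton] at he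
        exact Or.inl he
    refine List.nodup_flatMap.2 ⟨fun a _ => ?_, A.nodup.pairwise_of_forall_ne ?_⟩
    · rcases pc a with rfl | rfl | rfl | h
      · rw [p1, piece]; split_ifs <;> simp [sh] <;> omega
      · rw [p2, piece]; split_ifs <;> simp [sh] <;> omega
      · rw [p3, piece]; split_ifs <;> simp [sh] <;> omega
      · simp [h]
    · rintro ⟨a, a'⟩ ha ⟨b, b'⟩ hb hab ⟨e, e'⟩ he he'
      have u1 := q1 _ _ he
      have u2 := q1 _ _ he'
      have u3 := hN _ ha
      have u4 := hN _ hb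
      cases a' <;> cases b' <;> cases e' <;>
        simp only [Prod.mk.injEq, ne_eq, and_true, and_false, false_and, true_and, or_false,
          false_or, Bool.false_eq_true, Bool.true_eq_false, not_false_eq_true] at u1 u2 u3 u4 hab <;>
        omega
  let G : GK := ⟨A.word.flatMap ψ, fun c => if c < N then A.sign c else
    if c < 2 * N then -A.sign (c - N) else A.sign (c - 2 * N), hnd,
    fun c => by simp only [hmem, A.both]⟩
  have g0 : ∀ c, c < N → G.sign c = A.sign c := fun c hc => if_pos hc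
  have g1 : ∀ c, c < N → G.sign (c + N) = -A.sign c := fun c hc => by
    simp only [G]
    rw [if_neg (by omega), if_pos (by omega), Nat.add_sub_cancel]
  have g2 : ∀ c, G.sign (c + 2 * N) = A.sign c := fun c => by
    simp only [G]
    rw [if_neg (by omega), if_neg (by omega), Nat.add_sub_cancel]
  have oT := piece_ord N p (x, true) (y, true)
  have oM := piece_ord N q (x, false) (z, true)
  have oB := piece_ord N r (y, false) (z, false)
  rw [← p1] at oT
  rw [← p2] at oM
  rw [← p3] at oB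
  have hC : ∀ {e a b c d o}, e ∈ A.word → Ch (ψ e) a b c d o → Ch G.word a b c d o :=
    fun he h => ⟨ord_flat he h.1, ord_flat he h.2.1, ord_flat he h.2.2⟩
  refine pr_ext (G := G) (fun e he => (g0 _ (hN e he)).symm) ?_ ?_
  · have := canc3 (s := G.sign) hnd false (by simp; omega) (by rw [g1 z hz, g2]) (by rw [g1 y hy, g2])
      (by rw [g1 x hx, g2]) (hC h3.adj.mem.2 oB.2) (hC h2.adj.mem.2 oM.2) (hC h1.adj.mem.2 oT.2)
    convert this using 1
    rw [List.filter_flatMap, List.flatMap_congr (g := fun a => [a]), List.flatMap_singleton']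
    intro a ha
    have k0 : ∀ o lo hi, lo.1 ∈ [x, y, z] → hi.1 ∈ [x, y, z] → (piece N o lo hi).filter
        (fun e => decide (e.1 ∉ [z + N, z + 2 * N, y + N, y + 2 * N, x + N, x + 2 * N])) = [hi] := by
      rintro o ⟨a, a'⟩ ⟨b, b'⟩ ha hb
      have v1 : ∀ c ∈ [x, y, z], c ∉ [z + N, z + 2 * N, y + N, y + 2 * N, x + N, x + 2 * N] ∧
          c + N ∈ [z + N, z + 2 * N, y + N, y + 2 * N, x + N, x + 2 * N] ∧
          c + 2 * N ∈ [z + N, z + 2 * N, y + N, y + 2 * N, x + N, x + 2 * N] := by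
        simp
        omega
      unfold piece
      split_ifs <;>
        simp only [sh, List.filter_cons, v1 a ha, v1 b hb, not_true, not_false_eq_true,
          decide_true, decide_false, if_false, if_true, Bool.false_eq_true, List.filter_nil]
    have := hN a ha
    rcases pc a with rfl | rfl | rfl | h
    · rw [p1, k0 _ _ _ (by simp) (by simp)]
    · rw [p2, k0 _ _ _ (by simp) (by simp)]
    · rw [p3, k0 _ _ _ (by simp) (by simp)]
    · rw [h, List.filter_cons_of_pos (by simp; omega), List.filter_nil]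
  refine pr_block G (subg G fun c => c ∉ [x, x + N, y, y + N, z, z + N])
    (fun c => c ∉ [x, x + N, y, y + N, z, z + N]) rfl (fun _ _ => rfl)
    (fun c hc => (hmem _).2 ?_) (fun W W' b1 b2 b3 b4 => ?_) (pr_ren' ?_ hp)
  · simp only [decide_eq_false_iff_not, not_not, List.mem_cons, List.not_mem_nil, or_false] at hc
    rcases hc with rfl | rfl | rfl | rfl | rfl | rfl <;>
      simp [h1.adj.mem.1, h1.adj.mem.2, h2.adj.mem.2]
  · have hO : ∀ {a b o}, a.1 ∈ [x, x + N, y, y + N, z, z + N] → b.1 ∈ [x, x + N, y, y + N, z, z + N] →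
        Ord G.word a b o → Ord W.word a b o := fun ha hb h =>
      h.imp (And.imp_right fun h => b2 _ _ h (decide_eq_false (not_not.2 ha)) (decide_eq_false (not_not.2 hb)))
        (And.imp_right fun h => b2 _ _ h (decide_eq_false (not_not.2 hb)) (decide_eq_false (not_not.2 ha)))
    have sx : W.sign x = A.sign x := by rw [b1 _ (by simp), g0 x hx]
    have sy : W.sign y = A.sign y := by rw [b1 _ (by simp), g0 y hy]
    have sz : W.sign z = A.sign z := by rw [b1 _ (by simp), g0 z hz]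
    refine canc_r3 (p := p) (q := q) (r := r) (by simp; omega) ⟨?_, ?_, ?_⟩ ⟨?_, ?_, ?_⟩ ⟨?_, ?_, ?_⟩
      (by rw [sx, sy, sz, h4]) (by rw [sx, sy, sz, h5]) (by rw [sx, b1 _ (by simp), g1 x hx, neg_neg])
      (by rw [sy, b1 _ (by simp), g1 y hy, neg_neg]) (by rw [sz, b1 _ (by simp), g1 z hz, neg_neg])
      b3 b4 <;> refine hO (by simp) (by simp) ?_
    · exact ord_piece h1 (p4 _ (by simp [hxy]) (by simp [hxz]) (by simp)) p1
    · exact ord_flat h1.adj.mem.2 oT.1
    · exact ord_flat h1.adj.mem.2 oT.2.1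
    · exact ord_piece h2 (p4 _ (by simp) (by simp) (by simp [hxz])) p2
    · exact ord_flat h2.adj.mem.2 oM.1
    · exact ord_flat h2.adj.mem.2 oM.2.1
    · exact ord_piece h3 (p4 _ (by simp) (by simp) (by simp [hyz])) p3
    · exact ord_flat h3.adj.mem.2 oB.1
    · exact ord_flat h3.adj.mem.2 oB.2.1
  · refine ⟨fun c => if c < N then c else c - 2 * N, ?_, fun e he => ?_⟩
    · simp only [subg, G]
      rw [h6, List.filter_flatMap, List.map_flatMap, List.map_eq_flatMap]
      generalize hg : (fun a => List.map (Prod.map (fun c => if c < N then c else c - 2 * N) id)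
        (List.filter (fun e => decide (e.1 ∉ [x, x + N, y, y + N, z, z + N])) (ψ a))) = g
      have k0 : ∀ o lo hi, lo.1 ∈ [x, y, z] → hi.1 ∈ [x, y, z] → ψ hi = piece N o lo hi →
          ψ lo = [lo] → (o = 1 → [hi] ++ [lo] = g lo ++ g hi) ∧
            (o = -1 → [lo] ++ [hi] = g hi ++ g lo) := by
        rintro o ⟨a, a'⟩ ⟨b, b'⟩ ha hb u1 u2
        have v1 : ¬ a + 2 * N < N := by omega
        have v2 : ¬ b + 2 * N < N := by omega
        have v3 : a + 2 * N ∉ [x, x + N, y, y + N, z, z + N] := by simp; omega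
        have v4 : b + 2 * N ∉ [x, x + N, y, y + N, z, z + N] := by simp; omega
        have v5 : ∀ c ∈ [x, y, z], c ∈ [x, x + N, y, y + N, z, z + N] ∧
            c + N ∈ [x, x + N, y, y + N, z, z + N] := by simp
        constructor <;> rintro rfl <;>
          simp only [← hg, u1, u2, piece, sh, if_true, if_neg (show ¬ (-1 : ℤˣ) = 1 by decide),
            List.filter_cons, v1, v2, v3, v4, v5 a ha, v5 b hb, not_true, not_false_eq_true,
            decide_true, decide_false, if_false, Bool.false_eq_true, List.filter_nil, List.map_cons,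
            List.map_nil, Prod.map, id, Nat.add_sub_cancel, List.nil_append, List.append_nil,
            List.cons_append]
      have k1 := k0 p (x, true) _ (by simp) (by simp) p1
        (p4 _ (by simp [hxy]) (by simp [hxz]) (by simp))
      have k2 := k0 q (x, false) _ (by simp) (by simp) p2 (p4 _ (by simp) (by simp) (by simp [hxz]))
      have k3 := k0 r (y, false) _ (by simp) (by simp) p3 (p4 _ (by simp) (by simp) (by simp [hyz]))
      refine (flat_change A.nodup h1 (g := fun e => if e = (x, true) ∨ e = (y, true) then g e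
        else [sw x y z e]) (fun e _ u1 u2 => by simp [u1, u2]) (by simpa [s1, s2] using k1.1)
        (by simpa [s1, s2] using k1.2)).trans ((flat_change A.nodup h2
        (g := fun e => if e = (y, false) ∨ e = (z, false) then [sw x y z e] else g e) ?_
        (by simpa [s3, s4, hxy, hxz, hxz.symm, hyz.symm] using k2.1)
        (by simpa [s3, s4, hxy, hxz, hxz.symm, hyz.symm] using k2.2)).trans
        (flat_change A.nodup h3 (fun e _ u1 u2 => by simp [u1, u2]) (by simpa [s5, s6] using k3.1)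
        (by simpa [s5, s6] using k3.2)))
      rintro ⟨e, b⟩ he u1 u2
      have := hN _ he
      by_cases v1 : e = x
      · subst v1
        cases b
        · exact (u1 rfl).elim
        · simp
      by_cases v2 : e = y
      · subst v2; cases b <;> simp [v1]
      by_cases v3 : e = z
      · subst v3
        cases b
        · simp
        · exact (u2 rfl).elim
      rw [if_neg (by simp [v1, v2]), if_neg (by simp [v2, v3]), s7 (e, b) v1 v2 v3, ← hg]
      simp only [] at this ⊢
      rw [p4 _ (by simp [v2]) (by simp [v3]) (by simp [v3]), List.filter_cons_of_pos (by simp; omega)]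
      simp [this]
    · obtain ⟨u1, u2⟩ := List.mem_filter.1 he
      change _ = G.sign e.1
      rcases (hmem e).1 u1 with u3 | u3
      · simp only [if_pos (hN e u3)]
        rw [g0 _ (hN e u3), h7 e ((hm e).2 u3)]
      · have u4 : e.1 = x + 2 * N ∨ e.1 = y + 2 * N ∨ e.1 = z + 2 * N := by
          simp at u2 u3
          omega
        rcases u4 with u4 | u4 | u4 <;> simp only [u4] <;>
          rw [if_neg (by omega), Nat.add_sub_cancel, g2]
        · exact h7 _ ((hm _).2 h1.adj.mem.1)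
        · exact h7 _ ((hm _).2 h1.adj.mem.2)
        · exact h7 _ ((hm _).2 h2.adj.mem.2)

lemma pr_eqv {A A' : GK} (h : Eqv A A') : Pr m Z n A ↔ Pr m Z n A' := by
  induction h with
  | rel A A' h =>
    rcases h with h | h | h | h | h
    · exact ⟨pr_ren' h.symm, pr_ren' h⟩
    · exact ⟨pr_rot h.symm, pr_rot h⟩
    · exact pr_r1 h
    · exact pr_r2 h
    · exact ⟨pr_r3 h.symm, pr_r3 h⟩
  | refl => rfl
  | symm _ _ _ ih => exact ih.symm
  | trans _ _ _ _ _ ih ih' => exact ih.trans ih'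

end Pool.Agent.H.MP_69d501_gt
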