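import Pool.Agent.H.MP_69d501_gt.C

namespace Pool.Agent.H.MP_69d501_gt

open scoped symmDiff

lemma key {m : Bool} {Z D0 D1 : GK} {n : ℕ} {S : Finset ℕ} (h : Op m S D0 D1) (hp : Pr m Z n D1) :
    ∃ D' E S', Eqv D0 D' ∧ Op m S' D' E ∧ Eqv E Z ∧ S'.card ≤ S.card + n := by
  obtain ⟨N, hN⟩ := bound D0
  obtain ⟨E, T, F, a1, a2, a3, a4, a5, a6⟩ := pr_ren (rename_id rfl fun _ _ => rfl) hp
    fun e he => hN e (h.mem he)
  cases m
  · have h1 : D1.word = D0.word.filter fun e => e.1 ∉ S := h.2.1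
    have hE : ∀ e ∈ E.word, e.1 ∉ S := fun e he h2 => by
      rcases a6 e he with h3 | h3
      · rw [h1] at h3
        exact of_decide_eq_true (List.mem_filter.1 h3).2 h2
      · have := hN _ (h.1 _ h2)
        simp only [] at this
        omega
    obtain ⟨E', b1, b2, b3, b4, -⟩ := ins_gk D0 E (fun c => c ∉ S) (fun e he => by simpa using hE e he)
      (h1 ▸ a2) fun e he h2 => by
        have h3 : e ∈ D1.word := h1 ▸ List.mem_filter.2 ⟨he, h2⟩
        rw [← a1 e h3, h.2.2 e h3, if_neg (by simpa using h2)]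
    refine ⟨E', F, S ∪ T, .symm _ _ (b2.eqv D0 rfl E' rfl rfl b3), ⟨fun c hc => ?_, ?_, fun e he => ?_⟩,
      a4, (Finset.card_union_le _ _).trans (by omega)⟩
    · rcases Finset.mem_union.1 hc with hc | hc
      · exact b2.sub.subset (h.1 c hc)
      · exact (List.mem_filter.1 (b1 ▸ a3.1 c hc)).1
    · rw [a3.2.1, b1]
      simp only [opw, List.filter_filter]
      congr 1
      funext e
      simp [Bool.and_comm]
    · have h2 := a3.mem he
      rw [a3.2.2 e he, b4 e h2]
      simp only [Finset.mem_union, hE e h2, false_or]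
  · have h1 : D1.word = D0.word.map (flip S) := h.2.1
    have hS : ∀ c ∈ S, (c, true) ∈ D1.word := fun c hc => by
      rw [h1]
      exact List.mem_map.2 ⟨(c, false), (D0.both c).1 (h.1 c hc), by simp [flip, hc]⟩
    obtain ⟨E', b1, b2⟩ := exists_op true E fun c hc => a2.sub.subset (hS c hc)
    have b3 : E'.word = E.word.map (flip S) := b1.2.1
    have b4 := a2.flp hS
    rw [h1, List.map_map, List.map_congr_left (f := flip S ∘ flip S) (g := id)
      fun e _ => flip_flip S e,
      List.map_id] at b4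
    have hm : ∀ e ∈ E.word, e ∈ E'.word := fun e he => by
      rw [b3]
      refine List.mem_map.2 ⟨flip S e, ?_, flip_flip S e⟩
      have := E.mem he (flip S e).2
      rwa [← flip_fst S e] at this
    refine ⟨E', F, S ∆ T, .symm _ _ (b4.eqv D0 rfl E' b3 (funext b2) fun e he => ?_),
      ⟨fun c hc => ?_, ?_, fun e he => ?_⟩, a4, ?_⟩
    · have h3 : flip S e ∈ D1.word := h1 ▸ List.mem_map_of_mem he
      have h4 := a1 _ h3
      rw [h.2.2 _ h3, flip_fst] at h4
      rw [b2, ← h4]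
      split_ifs <;> simp
    · rcases Finset.mem_symmDiff.1 hc with hc | hc
      · exact hm _ (b1.1 c hc.1)
      · exact hm _ (a3.1 c hc.1)
    · rw [a3.2.1, b3]
      simp only [opw, List.map_map]
      congr 1
      funext e
      simp only [Function.comp, flip, Finset.mem_symmDiff]
      by_cases u1 : e.1 ∈ S <;> by_cases u2 : e.1 ∈ T <;> simp [u1, u2]
    · rw [a3.2.2 e he, b2]
      simp only [Finset.mem_symmDiff]
      by_cases u1 : e.1 ∈ S <;> by_cases u2 : e.1 ∈ T <;> simp [u1, u2]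
    · exact (Finset.card_le_card Finset.symmDiff_subset_union).trans
        ((Finset.card_union_le _ _).trans (by omega))

lemma seq_one {m : Bool} {D : GK} {n : ℕ} (h : Seq (Op m) D n) : ∃ k ≤ n, OneStep (Op m) D k := by
  induction h with
  | done D h =>
    obtain ⟨T, h1, h2⟩ := h
    refine ⟨0, le_rfl, D, D, ∅, .refl _, ⟨by simp, ?_, by simp⟩, ⟨T, h1, h2⟩, rfl⟩
    cases m
    · simp [opw]
    · exact ((List.map_congr_left (g := id) fun e _ => flip_of (by simp)).trans (List.map_id _)).symm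
  | step D D' E S n h1 h2 _ ih =>
    obtain ⟨k, hk, E', F, T, a1, a2, ⟨U, a3, a4⟩, rfl⟩ := ih
    have hp : Pr m F T.card E' := ⟨E', T, F, fun _ _ => rfl, .refl, a2, .refl _, le_rfl⟩
    obtain ⟨D2, E2, S2, b1, b2, b3, b4⟩ := key h2 ((pr_eqv a1).2 hp)
    exact ⟨S2.card, by omega, D2, E2, S2, .trans _ _ _ h1 b1, b2, ⟨U, a3, .trans _ _ _ b3 a4⟩, rfl⟩

lemma main (m : Bool) (D : GK) : sInf {k : ℕ∞ | ∃ n : ℕ, k = n ∧ OneStep (Op m) D n} =
    sInf {k : ℕ∞ | ∃ n : ℕ, k = n ∧ Seq (Op m) D n} := by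
  refine le_antisymm (le_sInf ?_) (sInf_le_sInf ?_)
  · rintro _ ⟨n, rfl, h⟩
    obtain ⟨k, hk, h1⟩ := seq_one h
    exact le_trans (b := (k : ℕ∞)) (sInf_le ⟨k, rfl, h1⟩) (by exact_mod_cast hk)
  · rintro _ ⟨n, rfl, D', E, S, h1, h2, h3, rfl⟩
    exact ⟨_, rfl, .step D D' E S 0 h1 h2 (.done E h3)⟩

lemma change_eq : Change = Op true := rfl

lemma virt_eq : Virt = Op false := by
  funext S D E
  refine propext (and_congr_right fun _ => and_congr_right fun h => forall₂_congr fun e he => ?_)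
  rw [h] at he
  rw [if_neg (by simpa using (List.mem_filter.1 he).2)]

end Pool.Agent.H.MP_69d501_gt
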