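import Mathlib

namespace Pool.Agent.H.MP_69d501_gt

/-- Based Gauss diagram of a virtual knot diagram. Classical crossings carry labels `c : ℕ`;
`(c, true)` is the over-passage and `(c, false)` the under-passage at `c`; `word` lists the passages
met along the knot from a base point; `sign c` is the sign of the crossing `c`. -/
structure GK where
  word : List (ℕ × Bool)
  sign : ℕ → ℤˣ
  nodup : word.Nodup
  both : ∀ c, (c, true) ∈ word ↔ (c, false) ∈ word

/-- `b` comes immediately after `a`. -/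
def Next (w : List (ℕ × Bool)) (a b : ℕ × Bool) : Prop := ∃ u v, w = u ++ a :: b :: v

def Adj (w : List (ℕ × Bool)) (a b : ℕ × Bool) : Prop := Next w a b ∨ Next w b a

def Ord (w : List (ℕ × Bool)) (a b : ℕ × Bool) (o : ℤˣ) : Prop :=
  (o = 1 ∧ Next w a b) ∨ (o = -1 ∧ Next w b a)

def SameSign (D E : GK) : Prop := ∀ e ∈ E.word, E.sign e.1 = D.sign e.1

def Rename (D E : GK) : Prop :=
  ∃ f : ℕ → ℕ, E.word = D.word.map (Prod.map f id) ∧ ∀ e ∈ D.word, E.sign (f e.1) = D.sign e.1

/-- Change of the base point. -/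
def Rotate (D E : GK) : Prop := ∃ u v, D.word = u ++ v ∧ E.word = v ++ u ∧ SameSign D E

def R1 (D E : GK) : Prop :=
  ∃ c, Adj D.word (c, true) (c, false) ∧ E.word = D.word.filter (fun e => e.1 ≠ c) ∧ SameSign D E

def R2 (D E : GK) : Prop :=
  ∃ c d, D.sign c = -D.sign d ∧ Adj D.word (c, true) (d, true) ∧ Adj D.word (c, false) (d, false) ∧
    E.word = D.word.filter (fun e => e.1 ≠ c ∧ e.1 ≠ d) ∧ SameSign D E

def R3 (D E : GK) : Prop :=
  ∃ (x y z : ℕ) (p q r : ℤˣ), x ≠ y ∧ x ≠ z ∧ y ≠ z ∧ Ord D.word (x, true) (y, true) p ∧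
    Ord D.word (x, false) (z, true) q ∧ Ord D.word (y, false) (z, false) r ∧
    p * D.sign x * D.sign y = q * D.sign x * D.sign z ∧
    p * D.sign x * D.sign y = r * D.sign y * D.sign z ∧
    E.word = D.word.map (Equiv.swap (x, true) (y, true) *
      Equiv.swap (x, false) (z, true) * Equiv.swap (y, false) (z, false) : Equiv.Perm (ℕ × Bool)) ∧
    SameSign D E

def Move (D E : GK) : Prop := Rename D E ∨ Rotate D E ∨ R1 D E ∨ R2 D E ∨ R3 D E

/-- The two diagrams represent the same virtual knot. -/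
def Eqv (D E : GK) : Prop := Relation.EqvGen Move D E

def Unknot (D : GK) : Prop := ∃ T : GK, T.word = [] ∧ Eqv D T

/-- `E` is `D` with the crossings in `S` changed. -/
def Change (S : Finset ℕ) (D E : GK) : Prop :=
  (∀ c ∈ S, (c, true) ∈ D.word) ∧
    E.word = D.word.map (fun e => if e.1 ∈ S then (e.1, !e.2) else e) ∧
    ∀ e ∈ E.word, E.sign e.1 = if e.1 ∈ S then -D.sign e.1 else D.sign e.1

/-- `E` is `D` with the crossings in `S` virtualized. -/
def Virt (S : Finset ℕ) (D E : GK) : Prop :=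
  (∀ c ∈ S, (c, true) ∈ D.word) ∧ E.word = D.word.filter (fun e => e.1 ∉ S) ∧ SameSign D E

/-- Unknotting in one step. -/
def OneStep (Op : Finset ℕ → GK → GK → Prop) (D : GK) (n : ℕ) : Prop :=
  ∃ D' E S, Eqv D D' ∧ Op S D' E ∧ Unknot E ∧ S.card = n

/-- Unknotting sequences with their total cost. -/
inductive Seq (Op : Finset ℕ → GK → GK → Prop) : GK → ℕ → Prop
  | done (D : GK) : Unknot D → Seq Op D 0
  | step (D D' E : GK) (S : Finset ℕ) (n : ℕ) :
      Eqv D D' → Op S D' E → Seq Op E n → Seq Op D (S.card + n)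

end Pool.Agent.H.MP_69d501_gt
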